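import Pool.Agent.H192R2.GP.Defs
import Pool.Agent.H192R2.GP.Stubs

/-! Task MAIN (helper418): `main_split` from the configuration theorems. -/

namespace Pool.Agent.H192R2.GP

namespace MAINaux

theorem clq_le {V : Type} {G : SimpleGraph V} {n m : ℕ} (h : m ≤ n) {x : ℕ → V}
    (hx : Clq G n x) : Clq G m x := fun i j hi hj hij => hx i j (by omega) (by omega) hij

theorem ind_le {V : Type} {G : SimpleGraph V} {n m : ℕ} (h : m ≤ n) {x : ℕ → V}
    (hx : Ind G n x) : Ind G m x := fun i j hi hj hij => hx i j (by omega) (by omega) hij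

theorem mat_le {V : Type} {G : SimpleGraph V} {n m : ℕ} (h : m ≤ n) {x y : ℕ → V}
    (hx : Mat G n x y) : Mat G m x y := fun i j hi hj => hx i j (by omega) (by omega)

theorem com_le {V : Type} {G : SimpleGraph V} {n m : ℕ} (h : m ≤ n) {x y : ℕ → V}
    (hx : Com G n x y) : Com G m x y := fun i j hi hj => hx i j (by omega) (by omega)

theorem half_le {V : Type} {G : SimpleGraph V} {n m : ℕ} (h : m ≤ n) {x y : ℕ → V}
    (hx : Half G n x y) : Half G m x y := fun i j hi hj => hx i j (by omega) (by omega)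

theorem split_le {V : Type} {G : SimpleGraph V} {s M n m : ℕ} (h : m ≤ n) {x : ℕ → V}
    (hx : Split G s M m x) : Split G s M n x := by
  obtain ⟨A, hA, I, J, hI, hJ, h1, h2⟩ := hx
  exact ⟨A, hA, I, J, hI, hJ, fun i hi => ⟨(h1 i hi).1.trans_le h, (h1 i hi).2⟩,
    fun i hi => ⟨(h2 i hi).1.trans_le h, (h2 i hi).2⟩⟩

/-- twins are split -/
theorem twins {V : Type} {G : SimpleGraph V} {M n : ℕ} (hn : 2 * M ≤ n) {x : ℕ → V}
    (hi : ∀ i j, i < n → j < n → i ≠ j → x i ≠ x j)
    (h : ∀ i j v, i < n → j < n → (G.Adj (x i) v ↔ G.Adj (x j) v)) : Split G 1 M n x := by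
  refine ⟨{v | ∃ i < M, x i = v}, ⟨fun _ => 0, ?_⟩, Finset.range M, Finset.Ico M (2 * M), ?_, ?_,
    ?_, ?_⟩
  · rintro _ ⟨i, hi, rfl⟩ _ ⟨j, hj, rfl⟩ _ v _
    exact h i j v (by omega) (by omega)
  · simp
  · simp; omega
  · intro i hi
    rw [Finset.mem_range] at hi
    exact ⟨by omega, i, hi, rfl⟩
  · intro j hj
    rw [Finset.mem_Ico] at hj
    refine ⟨by omega, ?_⟩
    rintro ⟨i, hi', he⟩
    exact hi i j (by omega) (by omega) (by omega) he

/-- the statement for families -/
theorem fam : ∃ s : ℕ, ∀ M : ℕ, ∃ N : ℕ, ∀ (V : Type) [Finite V] (G : SimpleGraph V), Cls G →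
    ∀ x : ℕ → V, (∀ i j, i < N → j < N → x i = x j → i = j) → Split G s M N x := by
  obtain ⟨sa, ha⟩ := Stub.alpha
  obtain ⟨sb, hb⟩ := Stub.beta2
  obtain ⟨sc, hc⟩ := Stub.gamma
  obtain ⟨sd, hd⟩ := Stub.delta
  refine ⟨max 1 (max (max sa sb) (max sc sd)), fun M => ?_⟩
  obtain ⟨na, ha1⟩ := ha M
  obtain ⟨na', ha2⟩ := ha (M + sa + 1)
  obtain ⟨nb, hb1⟩ := hb M
  obtain ⟨nc, hc1⟩ := hc M
  obtain ⟨nd, hd1⟩ := hd M
  set n := max (2 * M) (max (max na na') (max nb (max nc nd))) with hn
  obtain ⟨Np, hp⟩ := Stub.pattern n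
  obtain ⟨N, hN⟩ := Stub.clq_or_ind (max na Np)
  refine ⟨N, fun V _ G hG x hx => ?_⟩
  obtain ⟨σ, hσ1, hσ2, h | h⟩ := hN G x hx
  · have h1 := ha1 V G hG _ (clq_le (le_max_left na Np) h)
    refine Stub.Split.mono (by omega) le_rfl (Stub.Split.sub σ ?_ ?_ h1)
    · intro i j hi hj he
      by_contra hne
      rcases lt_or_gt_of_ne hne with h2 | h2
      · have := hσ1 i j h2 (by omega)
        omega
      · have := hσ1 j i h2 (by omega)
        omega
    · intro i hi
      exact hσ2 i (by omega)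
  · have hσi : ∀ i j, i < max na Np → j < max na Np → σ i = σ j → i = j := by
      intro i j hi hj he
      by_contra hne
      rcases lt_or_gt_of_ne hne with h2 | h2
      · have := hσ1 i j h2 (by omega)
        omega
      · have := hσ1 j i h2 (by omega)
        omega
    obtain ⟨τ, hτ1, hτ2, h3⟩ := hp G _ (ind_le (le_max_right na Np) h)
    -- it suffices to split the subfamily
    have key : ∀ s, s ≤ max 1 (max (max sa sb) (max sc sd)) →
        Split G s M n (fun i => x (σ (τ i))) →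
        Split G (max 1 (max (max sa sb) (max sc sd))) M N x := by
      intro s hs h4
      refine Stub.Split.mono hs le_rfl (Stub.Split.sub (fun i => σ (τ i)) ?_ ?_ h4)
      · intro i j hi hj he
        have h5 := hτ2 i hi
        have h6 := hτ2 j hj
        exact hτ1 i j hi hj (hσi _ _ (by omega) (by omega) he)
      · intro i hi
        have h5 := hτ2 i hi
        exact hσ2 _ (by omega)
    have hind : Ind G n (fun i => x (σ (τ i))) := by
      intro i j hi hj hij
      have h5 := hτ2 i hi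
      have h6 := hτ2 j hj
      exact h _ _ (by omega) (by omega) (fun h7 => hij (hτ1 i j hi hj h7))
    rcases h3 with h3 | ⟨y, h3, h4 | h4⟩
    · exact key 1 (by omega) (twins (by omega) (fun i j hi hj hij => (hind i j hi hj hij).1) h3)
    · have h5 := ha2 V G hG y (clq_le (by omega : na' ≤ n) h4)
      refine key sa (by omega) (split_le (by omega : na' ≤ n) ?_)
      refine Stub.Split.transfer (y := y) ?_ h5
      rcases h3 with h3 | h3 | h3
      · exact Or.inl (mat_le (by omega) h3)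
      · exact Or.inr (Or.inl (com_le (by omega) h3))
      · exact Or.inr (Or.inr (half_le (by omega) h3))
    · rcases h3 with h3 | h3 | h3
      · exact key sd (by omega) (split_le (by omega : nd ≤ n) (hd1 V G hG _
          ⟨ind_le (by omega) hind, y, ind_le (by omega) h4, mat_le (by omega) h3⟩))
      · exact key sc (by omega) (split_le (by omega : nc ≤ n) (hc1 V G hG _
          ⟨ind_le (by omega) hind, y, ind_le (by omega) h4, com_le (by omega) h3⟩))
      · exact key sb (by omega) (split_le (by omega : nb ≤ n) (hb1 V G hG _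
          ⟨ind_le (by omega) hind, y, ind_le (by omega) h4, half_le (by omega) h3⟩))

end MAINaux

open MAINaux in
/-- large sets are cut by cuts with boundedly many labels -/
theorem main_split : ∃ s : ℕ, ∀ M : ℕ, ∃ N : ℕ, ∀ (V : Type) [Finite V] (G : SimpleGraph V), Cls G →
    ∀ X : Finset V, N ≤ X.card → ∃ A : Set V, Cut G s A ∧ ∃ X1 X2 : Finset V, X1 ⊆ X ∧ X2 ⊆ X ∧
      (∀ v ∈ X1, v ∈ A) ∧ (∀ v ∈ X2, v ∉ A) ∧ M ≤ X1.card ∧ M ≤ X2.card := by
  classical
  obtain ⟨s, hs⟩ := fam
  refine ⟨s, fun M => ?_⟩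
  obtain ⟨N, hN⟩ := hs M
  refine ⟨max 1 N, fun V _ G hG X hX => ?_⟩
  have hX0 : 0 < X.card := by omega
  obtain ⟨v0, hv0⟩ := Finset.card_pos.1 hX0
  set x : ℕ → V := fun i => if h : i < X.card then (X.equivFin.symm ⟨i, h⟩ : V) else v0 with hx
  have hxX : ∀ i, x i ∈ X := by
    intro i
    simp only [hx]
    split_ifs
    · exact Finset.coe_mem _
    · exact hv0
  have hxi : ∀ i j, i < N → j < N → x i = x j → i = j := by
    intro i j hi hj he
    simp only [hx] at he
    rw [dif_pos (by omega), dif_pos (by omega)] at he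
    have := X.equivFin.symm.injective (Subtype.ext he)
    simpa using this
  obtain ⟨A, hA, I, J, hI, hJ, h1, h2⟩ := hN V G hG x hxi
  have hcard : ∀ K : Finset ℕ, (∀ i ∈ K, i < N) → (K.image x).card = K.card := by
    intro K hK
    exact Finset.card_image_of_injOn fun i hi j hj he => hxi i j (hK i hi) (hK j hj) he
  refine ⟨A, hA, I.image x, J.image x, ?_, ?_, ?_, ?_, ?_, ?_⟩
  · intro v hv
    obtain ⟨i, _, rfl⟩ := Finset.mem_image.1 hv
    exact hxX i
  · intro v hv
    obtain ⟨i, _, rfl⟩ := Finset.mem_image.1 hv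
    exact hxX i
  · intro v hv
    obtain ⟨i, hi, rfl⟩ := Finset.mem_image.1 hv
    exact (h1 i hi).2
  · intro v hv
    obtain ⟨i, hi, rfl⟩ := Finset.mem_image.1 hv
    exact (h2 i hi).2
  · rw [hcard I fun i hi => (h1 i hi).1]
    exact hI
  · rw [hcard J fun i hi => (h2 i hi).1]
    exact hJ

end Pool.Agent.H192R2.GP
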